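import Pool.Agent.Lib.MP_3e31c9.Basic

/-!
# The absorption step

Words of length `k` over a bounded poset `S` containing a family `q` of disjoint copies of `P`.
The words over the remaining letters come in chunks `x (X, ·)` indexed by `P`; each chunk is
absorbed by a `P × P` grid.
-/

namespace Pool.Agent.Lib.MP_3e31c9

/-- The data for the absorption step. -/
structure Setup (P S : Type) [PartialOrder P] [PartialOrder S] [BoundedOrder S] (k lam : ℕ) where
  J : Type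
  q : J × P → S
  q_inj : Function.Injective q
  q_ord : ∀ j a b, q (j, a) ≤ q (j, b) ↔ a ≤ b
  q_bot : ∀ x, q x ≠ ⊥
  q_top : ∀ x, q x ≠ ⊤
  X : Type
  x : X × P → (Fin k → S)
  x_inj : Function.Injective x
  x_range : ∀ w, (∃ y, x y = w) ↔ ((∀ l y, q y ≠ w l) ∧ w ≠ ⊥ ∧ w ≠ ⊤)
  D : X → Set (Fin k)
  x_agree : ∀ X c c' l, l ∉ D X → x (X, c) l = x (X, c') l
  x_ne_bot : ∀ X c, ∃ l ∈ D X, x (X, c) l ≠ ⊥
  x_ne_top : ∀ X c, ∃ l ∈ D X, x (X, c) l ≠ ⊤
  H : X → Finset (Fin k)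
  H_card : ∀ X, (H X).card = lam + 2
  H_D : ∀ X l, l ∈ H X → l ∉ D X
  s : X → S
  H_s : ∀ X c l, l ∈ H X → x (X, c) l = s X
  j : X → J
  β : X → P
  flag : X → P → S
  flag_bt : ∀ X b, flag X b = ⊥ ∨ flag X b = ⊤
  updown : ∀ X, ((∀ c, s X < q (j X, c)) ∧ (∀ b, b ≤ β X → b = β X) ∧
      (∀ b, b ≠ β X → (β X ≤ b → flag X b = ⊤) ∧ (¬ β X ≤ b → flag X b = ⊥))) ∨
    ((∀ c, q (j X, c) < s X) ∧ (∀ b, β X ≤ b → b = β X) ∧
      (∀ b, b ≠ β X → (b ≤ β X → flag X b = ⊥) ∧ (¬ b ≤ β X → flag X b = ⊤)))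
  code : X → Fin lam → P
  code_inj : ∀ X X', code X = code X' → D X = D X' ∧ s X = s X' ∧
    ∀ c, ∀ l ∈ D X, x (X, c) l = x (X', c) l

namespace Setup

variable {P S : Type} [PartialOrder P] [PartialOrder S] [BoundedOrder S] {k lam : ℕ}
  (Z : Setup P S k lam)

/-- The increasing enumeration of the special positions of a chunk. -/
noncomputable def rk (X : Z.X) (l : Fin k) (hl : l ∈ Z.H X) : Fin (lam + 2) :=
  ((Z.H X).orderIsoOfFin (Z.H_card X)).symm ⟨l, hl⟩

lemma rk_congr {X X' : Z.X} (h : Z.H X = Z.H X') (l : Fin k) (hl : l ∈ Z.H X)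
    (hl' : l ∈ Z.H X') : Z.rk X l hl = Z.rk X' l hl' := by
  unfold rk
  congr!

/-- The position of given rank. -/
noncomputable def pos (X : Z.X) (i : Fin (lam + 2)) : Fin k :=
  ((Z.H X).orderIsoOfFin (Z.H_card X) i : Z.H X)

lemma pos_mem (X : Z.X) (i : Fin (lam + 2)) : Z.pos X i ∈ Z.H X := by
  unfold pos
  exact Subtype.coe_prop _

lemma rk_pos (X : Z.X) (i : Fin (lam + 2)) : Z.rk X (Z.pos X i) (Z.pos_mem X i) = i := by
  have h : (⟨Z.pos X i, Z.pos_mem X i⟩ : Z.H X) = (Z.H X).orderIsoOfFin (Z.H_card X) i :=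
    Subtype.ext rfl
  unfold rk
  rw [h, OrderIso.symm_apply_apply]

lemma pos_rk (X : Z.X) (l : Fin k) (hl : l ∈ Z.H X) : Z.pos X (Z.rk X l hl) = l := by
  unfold rk pos
  simp

lemma pos_zero_le (X : Z.X) (l : Fin k) (hl : l ∈ Z.H X) : Z.pos X 0 ≤ l := by
  have h : (0 : Fin (lam + 2)) ≤ Z.rk X l hl := Fin.zero_le _
  have h2 : Z.pos X 0 ≤ Z.pos X (Z.rk X l hl) := by
    unfold pos
    exact Subtype.coe_le_coe.mpr (((Z.H X).orderIsoOfFin (Z.H_card X)).monotone h)
  rwa [pos_rk] at h2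

/-- The word of letters on the special positions. -/
def u (X : Z.X) (c b : P) : Fin (lam + 2) → P :=
  Fin.cons c (Fin.cons b (Z.code X))

open Classical in
/-- The grid elements. -/
noncomputable def T (c₀ : P) (X : Z.X) (c b : P) : Fin k → S := fun l =>
  if hl : l ∈ Z.H X then Z.q (Z.j X, Z.u X c b (Z.rk X l hl))
  else if l ∈ Z.D X then Z.flag X b else Z.x (X, c₀) l

lemma T_H (c₀ : P) (X : Z.X) (c b : P) (l : Fin k) (hl : l ∈ Z.H X) :
    Z.T c₀ X c b l = Z.q (Z.j X, Z.u X c b (Z.rk X l hl)) := by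
  unfold T
  rw [dif_pos hl]

lemma T_D (c₀ : P) (X : Z.X) (c b : P) (l : Fin k) (hl : l ∈ Z.D X) :
    Z.T c₀ X c b l = Z.flag X b := by
  unfold T
  rw [dif_neg (fun h => Z.H_D X l h hl), if_pos hl]

lemma T_else (c₀ : P) (X : Z.X) (c b : P) (l : Fin k) (hl : l ∉ Z.H X) (hl' : l ∉ Z.D X) :
    Z.T c₀ X c b l = Z.x (X, c₀) l := by
  unfold T
  rw [dif_neg hl, if_neg hl']

lemma x_not (X : Z.X) (c : P) (l : Fin k) (y : Z.J × P) : Z.q y ≠ Z.x (X, c) l :=
  (((Z.x_range _).1 ⟨_, rfl⟩).1) l y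

lemma T_iff (c₀ : P) (X : Z.X) (c b : P) (l : Fin k) :
    (∃ y, Z.q y = Z.T c₀ X c b l) ↔ l ∈ Z.H X := by
  constructor
  · rintro ⟨y, hy⟩
    by_contra hl
    by_cases hD : l ∈ Z.D X
    · rw [T_D _ _ _ _ _ _ hD] at hy
      rcases Z.flag_bt X b with h | h
      · exact Z.q_bot y (hy.trans h)
      · exact Z.q_top y (hy.trans h)
    · rw [T_else _ _ _ _ _ _ hl hD] at hy
      exact Z.x_not _ _ _ _ hy
  · intro hl
    exact ⟨_, (Z.T_H c₀ X c b l hl).symm⟩

lemma T_inj (c₀ : P) (X X' : Z.X) (c b c' b' : P) (h : Z.T c₀ X c b = Z.T c₀ X' c' b') :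
    X = X' ∧ c = c' ∧ b = b' := by
  have hH : Z.H X = Z.H X' := by
    ext l
    rw [← Z.T_iff c₀ X c b l, ← Z.T_iff c₀ X' c' b' l, h]
  have hq : ∀ i : Fin (lam + 2), Z.j X = Z.j X' ∧ Z.u X c b i = Z.u X' c' b' i := by
    intro i
    have hl := Z.pos_mem X i
    have hl' : Z.pos X i ∈ Z.H X' := hH ▸ hl
    have h1 := congrFun h (Z.pos X i)
    rw [Z.T_H _ _ _ _ _ hl, Z.T_H _ _ _ _ _ hl'] at h1
    have h2 := Z.q_inj h1
    rw [← Z.rk_congr hH _ hl hl', Z.rk_pos] at h2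
    simpa using h2
  have hu : Z.u X c b = Z.u X' c' b' := funext fun i => (hq i).2
  unfold u at hu
  have hc : c = c' := by simpa using congrFun hu 0
  have hu1 := congrArg (Fin.tail) hu
  rw [Fin.tail_cons, Fin.tail_cons] at hu1
  have hb : b = b' := by simpa using congrFun hu1 0
  have hu2 := congrArg (Fin.tail) hu1
  rw [Fin.tail_cons, Fin.tail_cons] at hu2
  obtain ⟨hD, hs, hx⟩ := Z.code_inj X X' hu2
  refine ⟨?_, hc, hb⟩
  have hxx : Z.x (X, c₀) = Z.x (X', c₀) := by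
    funext l
    by_cases hlD : l ∈ Z.D X
    · exact hx c₀ l hlD
    · by_cases hlH : l ∈ Z.H X
      · rw [Z.H_s X c₀ l hlH, Z.H_s X' c₀ l (hH ▸ hlH), hs]
      · have h1 := congrFun h l
        rw [Z.T_else _ _ _ _ _ hlH hlD, Z.T_else _ _ _ _ _ (hH ▸ hlH) (hD ▸ hlD)] at h1
        exact h1
  have := Z.x_inj hxx
  simpa using this

/-! ### Columns -/

lemma T_le_T (c₀ : P) (X : Z.X) (c b b' : P) (hb : b ≠ Z.β X) (hb' : b' ≠ Z.β X) :
    Z.T c₀ X c b ≤ Z.T c₀ X c b' ↔ b ≤ b' := by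
  constructor
  · intro h
    have h1 := h (Z.pos X 1)
    rw [Z.T_H _ _ _ _ _ (Z.pos_mem X 1), Z.T_H _ _ _ _ _ (Z.pos_mem X 1), Z.q_ord, Z.rk_pos] at h1
    simpa [u] using h1
  · intro h l
    by_cases hlH : l ∈ Z.H X
    · rw [Z.T_H _ _ _ _ _ hlH, Z.T_H _ _ _ _ _ hlH, Z.q_ord]
      generalize Z.rk X l hlH = i
      unfold u
      refine Fin.cases ?_ (fun i => ?_) i
      · simp
      · rw [Fin.cons_succ, Fin.cons_succ]
        refine Fin.cases ?_ (fun i => ?_) i
        · simpa using h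
        · simp
    · by_cases hlD : l ∈ Z.D X
      · rw [Z.T_D _ _ _ _ _ hlD, Z.T_D _ _ _ _ _ hlD]
        rcases Z.updown X with ⟨_, _, hf⟩ | ⟨_, _, hf⟩
        · by_cases h1 : Z.β X ≤ b
          · rw [(hf b hb).1 h1, (hf b' hb').1 (h1.trans h)]
          · rw [(hf b hb).2 h1]
            exact bot_le
        · by_cases h1 : b' ≤ Z.β X
          · rw [(hf b hb).1 (h.trans h1)]
            exact bot_le
          · rw [(hf b' hb').2 h1]
            exact le_top
      · rw [Z.T_else _ _ _ _ _ hlH hlD, Z.T_else _ _ _ _ _ hlH hlD]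

lemma x_le_T (c₀ : P) (X : Z.X) (c b : P) (hb : b ≠ Z.β X) :
    Z.x (X, c) ≤ Z.T c₀ X c b ↔ Z.β X ≤ b := by
  rcases Z.updown X with ⟨hs, hm, hf⟩ | ⟨hs, hm, hf⟩
  · constructor
    · intro h
      by_contra hcon
      obtain ⟨l, hl, hne⟩ := Z.x_ne_bot X c
      have h1 := h l
      rw [Z.T_D _ _ _ _ _ hl, (hf b hb).2 hcon] at h1
      exact hne (le_bot_iff.1 h1)
    · intro h l
      by_cases hlH : l ∈ Z.H X
      · rw [Z.T_H _ _ _ _ _ hlH, Z.H_s X c l hlH]
        exact (hs _).le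
      · by_cases hlD : l ∈ Z.D X
        · rw [Z.T_D _ _ _ _ _ hlD, (hf b hb).1 h]
          exact le_top
        · rw [Z.T_else _ _ _ _ _ hlH hlD, Z.x_agree X c c₀ l hlD]
  · constructor
    · intro h
      exfalso
      have h1 := h (Z.pos X 0)
      rw [Z.T_H _ _ _ _ _ (Z.pos_mem X 0), Z.H_s X c _ (Z.pos_mem X 0)] at h1
      exact absurd h1 (not_le_of_gt (hs _))
    · intro h
      exact absurd (hm b h) hb

lemma T_le_x (c₀ : P) (X : Z.X) (c b : P) (hb : b ≠ Z.β X) :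
    Z.T c₀ X c b ≤ Z.x (X, c) ↔ b ≤ Z.β X := by
  rcases Z.updown X with ⟨hs, hm, hf⟩ | ⟨hs, hm, hf⟩
  · constructor
    · intro h
      exfalso
      have h1 := h (Z.pos X 0)
      rw [Z.T_H _ _ _ _ _ (Z.pos_mem X 0), Z.H_s X c _ (Z.pos_mem X 0)] at h1
      exact absurd h1 (not_le_of_gt (hs _))
    · intro h
      exact absurd (hm b h) hb
  · constructor
    · intro h
      by_contra hcon
      obtain ⟨l, hl, hne⟩ := Z.x_ne_top X c
      have h1 := h l
      rw [Z.T_D _ _ _ _ _ hl, (hf b hb).2 hcon] at h1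
      exact hne (top_le_iff.1 h1)
    · intro h l
      by_cases hlH : l ∈ Z.H X
      · rw [Z.T_H _ _ _ _ _ hlH, Z.H_s X c l hlH]
        exact (hs _).le
      · by_cases hlD : l ∈ Z.D X
        · rw [Z.T_D _ _ _ _ _ hlD, (hf b hb).1 h]
          exact bot_le
        · rw [Z.T_else _ _ _ _ _ hlH hlD, Z.x_agree X c c₀ l hlD]

/-! ### Rows -/

/-- `i` is the first position of `y` whose letter belongs to the family `q`. -/
def First (y : Fin k → S) (i : Fin k) : Prop :=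
  (∃ z, Z.q z = y i) ∧ ∀ l < i, ∀ z, Z.q z ≠ y l

lemma First.unique {y : Fin k → S} {i i' : Fin k} (h : Z.First y i) (h' : Z.First y i') :
    i = i' := by
  rcases lt_trichotomy i i' with hlt | heq | hgt
  · obtain ⟨z, hz⟩ := h.1
    exact absurd hz (h'.2 i hlt z)
  · exact heq
  · obtain ⟨z, hz⟩ := h'.1
    exact absurd hz (h.2 i' hgt z)

lemma exists_first {y : Fin k → S} (h : ∃ l z, Z.q z = y l) : ∃ i, Z.First y i := by
  classical
  have hne : (Finset.univ.filter (fun l : Fin k => ∃ z, Z.q z = y l)).Nonempty := by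
    obtain ⟨l, hl⟩ := h
    exact ⟨l, by simpa using hl⟩
  refine ⟨(Finset.univ.filter (fun l : Fin k => ∃ z, Z.q z = y l)).min' hne, ?_, ?_⟩
  · have := Finset.min'_mem _ hne
    simpa using this
  · intro l hl z hz
    have : l ∈ Finset.univ.filter (fun l : Fin k => ∃ z, Z.q z = y l) := by
      simp only [Finset.mem_filter, Finset.mem_univ, true_and]
      exact ⟨z, hz⟩
    exact absurd hl (not_lt.mpr (Finset.min'_le _ l this))

lemma First.update {y : Fin k → S} {i : Fin k} (h : Z.First y i) (z : Z.J × P) :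
    Z.First (Function.update y i (Z.q z)) i := by
  refine ⟨⟨z, by simp⟩, fun l hl z' => ?_⟩
  rw [Function.update_of_ne (ne_of_lt hl)]
  exact h.2 l hl z'

/-- Rows: words whose first `q`-letter has role `c₀`. -/
def Rows (c₀ : P) : Type := {y : Fin k → S // ∃ i j, Z.First y i ∧ Z.q (j, c₀) = y i}

noncomputable def rowI {c₀ : P} (r : Z.Rows c₀) : Fin k := r.2.choose

noncomputable def rowJ {c₀ : P} (r : Z.Rows c₀) : Z.J := r.2.choose_spec.choose

lemma row_first {c₀ : P} (r : Z.Rows c₀) : Z.First r.1 (Z.rowI r) :=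
  r.2.choose_spec.choose_spec.1

lemma row_q {c₀ : P} (r : Z.Rows c₀) : Z.q (Z.rowJ r, c₀) = r.1 (Z.rowI r) :=
  r.2.choose_spec.choose_spec.2

lemma rowI_eq {c₀ : P} (r : Z.Rows c₀) {i : Fin k} (h : Z.First r.1 i) : Z.rowI r = i :=
  First.unique Z (Z.row_first r) h

lemma rowJ_eq {c₀ : P} (r : Z.Rows c₀) {i : Fin k} {j : Z.J} (h : Z.First r.1 i)
    (hj : Z.q (j, c₀) = r.1 i) : Z.rowJ r = j := by
  have h1 := Z.row_q r
  rw [Z.rowI_eq r h, ← hj] at h1
  have := Z.q_inj h1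
  simpa using this

open Classical in
/-- The base partition: rows and chunks. -/
noncomputable def base (c₀ : P) : (Z.Rows c₀ ⊕ Z.X) × P → (Fin k → S)
  | (Sum.inl r, c) => Function.update r.1 (Z.rowI r) (Z.q (Z.rowJ r, c))
  | (Sum.inr X, c) => Z.x (X, c)

lemma base_first (c₀ : P) (r : Z.Rows c₀) (c : P) :
    Z.First (Z.base c₀ (Sum.inl r, c)) (Z.rowI r) :=
  First.update Z (Z.row_first r) _

lemma base_injective (c₀ : P) : Function.Injective (Z.base c₀) := by
  classical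
  rintro ⟨r | X, c⟩ ⟨r' | X', c'⟩ h
  · have h1 := Z.base_first c₀ r c
    have h2 := Z.base_first c₀ r' c'
    rw [← h] at h2
    have hi := First.unique Z h1 h2
    have h3 := congrFun h (Z.rowI r)
    simp only [base] at h3
    rw [Function.update_self, hi, Function.update_self] at h3
    have h4 := Z.q_inj h3
    simp only [Prod.mk.injEq] at h4
    have h5 : r = r' := by
      apply Subtype.ext
      funext l
      by_cases hl : l = Z.rowI r
      · rw [hl, ← Z.row_q r, h4.1, hi, Z.row_q r']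
      · have h6 := congrFun h l
        simp only [base] at h6
        rw [Function.update_of_ne hl, Function.update_of_ne (hi ▸ hl)] at h6
        exact h6
    rw [h5, h4.2]
  · exfalso
    obtain ⟨z, hz⟩ := (Z.base_first c₀ r c).1
    rw [h] at hz
    exact Z.x_not _ _ _ _ hz
  · exfalso
    obtain ⟨z, hz⟩ := (Z.base_first c₀ r' c').1
    rw [← h] at hz
    exact Z.x_not _ _ _ _ hz
  · have := Z.x_inj h
    simp only [Prod.mk.injEq] at this
    rw [this.1, this.2]

lemma base_range (c₀ : P) (y : Fin k → S) : (∃ z, Z.base c₀ z = y) ↔ (y ≠ ⊥ ∧ y ≠ ⊤) := by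
  classical
  constructor
  · rintro ⟨⟨r | X, c⟩, rfl⟩
    · obtain ⟨z, hz⟩ := (Z.base_first c₀ r c).1
      constructor
      · intro h
        rw [h] at hz
        exact Z.q_bot z hz
      · intro h
        rw [h] at hz
        exact Z.q_top z hz
    · exact ((Z.x_range _).1 ⟨(X, c), rfl⟩).2
  · rintro ⟨h1, h2⟩
    by_cases h : ∃ l z, Z.q z = y l
    · obtain ⟨i, hi⟩ := Z.exists_first h
      obtain ⟨⟨j, c⟩, hz⟩ := hi.1
      have hf : Z.First (Function.update y i (Z.q (j, c₀))) i := First.update Z hi _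
      let r : Z.Rows c₀ := ⟨Function.update y i (Z.q (j, c₀)), i, j, hf, by simp⟩
      have hri : Z.rowI r = i := Z.rowI_eq r hf
      have hrj : Z.rowJ r = j := Z.rowJ_eq r hf (by simp [r])
      refine ⟨(Sum.inl r, c), ?_⟩
      simp only [base]
      rw [hri, hrj, hz]
      simp [r]
    · push Not at h
      obtain ⟨⟨X, c⟩, hXc⟩ := (Z.x_range y).2 ⟨h, h1, h2⟩
      exact ⟨(Sum.inr X, c), hXc⟩

lemma T_first (c₀ : P) (X : Z.X) (c b : P) : Z.First (Z.T c₀ X c b) (Z.pos X 0) := by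
  refine ⟨(Z.T_iff c₀ X c b _).2 (Z.pos_mem X 0), fun l hl z hz => ?_⟩
  have h1 := (Z.T_iff c₀ X c b l).1 ⟨z, hz⟩
  exact absurd hl (not_lt.mpr (Z.pos_zero_le X l h1))

lemma T_pos_zero (c₀ : P) (X : Z.X) (c b : P) :
    Z.T c₀ X c b (Z.pos X 0) = Z.q (Z.j X, c) := by
  rw [Z.T_H _ _ _ _ _ (Z.pos_mem X 0), Z.rk_pos]
  rfl

/-- The row through the grid elements `T c₀ X · b`. -/
noncomputable def row (c₀ : P) (X : Z.X) (b : P) : Z.Rows c₀ :=
  ⟨Z.T c₀ X c₀ b, Z.pos X 0, Z.j X, Z.T_first c₀ X c₀ b, (Z.T_pos_zero c₀ X c₀ b).symm⟩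

lemma base_row (c₀ : P) (X : Z.X) (b c : P) :
    Z.base c₀ (Sum.inl (Z.row c₀ X b), c) = Z.T c₀ X c b := by
  classical
  have h1 : Z.rowI (Z.row c₀ X b) = Z.pos X 0 :=
    Z.rowI_eq (Z.row c₀ X b) (Z.T_first c₀ X c₀ b)
  have h2 : Z.rowJ (Z.row c₀ X b) = Z.j X :=
    Z.rowJ_eq (Z.row c₀ X b) (Z.T_first c₀ X c₀ b) (Z.T_pos_zero c₀ X c₀ b).symm
  simp only [base]
  rw [h1, h2]
  funext l
  by_cases hl : l = Z.pos X 0
  · rw [hl, Function.update_self, T_pos_zero]
  · rw [Function.update_of_ne hl]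
    change Z.T c₀ X c₀ b l = _
    by_cases hlH : l ∈ Z.H X
    · rw [Z.T_H _ _ _ _ _ hlH, Z.T_H _ _ _ _ _ hlH]
      congr 2
      have hne : Z.rk X l hlH ≠ 0 := by
        intro h0
        apply hl
        rw [← h0, Z.pos_rk]
      obtain ⟨i, hi⟩ := Fin.exists_succ_eq.mpr hne
      rw [← hi]
      unfold u
      rw [Fin.cons_succ, Fin.cons_succ]
    · by_cases hlD : l ∈ Z.D X
      · rw [Z.T_D _ _ _ _ _ hlD, Z.T_D _ _ _ _ _ hlD]
      · rw [Z.T_else _ _ _ _ _ hlH hlD, Z.T_else _ _ _ _ _ hlH hlD]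

open Classical in
/-- The tile of the base partition which is the `b`-th row of the grid of the chunk `X`. -/
noncomputable def rho (c₀ : P) : Z.X × P → Z.Rows c₀ ⊕ Z.X := fun y =>
  if y.2 = Z.β y.1 then Sum.inr y.1 else Sum.inl (Z.row c₀ y.1 y.2)

include Z in
theorem tiles (c₀ : P) : Tiles P (Fin k → S) := by
  classical
  refine Tiles.of_grid (Z.base c₀) (Z.base_injective c₀) (Z.base_range c₀) (Z.rho c₀) ?_ ?_ ?_
  · rintro ⟨X, b⟩ ⟨X', b'⟩ h
    simp only [rho] at h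
    split_ifs at h with h1 h2 h2
    · have h3 := Sum.inr_injective h
      rw [h1, h2, h3]
    · have h3 := congrArg Subtype.val (Sum.inl_injective h)
      obtain ⟨h4, _, h5⟩ := Z.T_inj c₀ X X' c₀ b c₀ b' h3
      rw [h4, h5]
  · rintro (r | X) hi a b
    · simp only [base]
      constructor
      · intro h
        have h1 := h (Z.rowI r)
        rw [Function.update_self, Function.update_self, Z.q_ord] at h1
        exact h1
      · intro h l
        by_cases hl : l = Z.rowI r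
        · rw [hl, Function.update_self, Function.update_self, Z.q_ord]
          exact h
        · rw [Function.update_of_ne hl, Function.update_of_ne hl]
    · exfalso
      apply hi (X, Z.β X)
      simp [rho]
  · intro X c a b
    by_cases ha : a = Z.β X
    · by_cases hb : b = Z.β X
      · rw [ha, hb]
        simp
      · have h1 : Z.rho c₀ (X, a) = Sum.inr X := by simp [rho, ha]
        have h2 : Z.rho c₀ (X, b) = Sum.inl (Z.row c₀ X b) := by simp [rho, hb]
        rw [h1, h2, Z.base_row]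
        simp only [base]
        rw [Z.x_le_T c₀ X c b hb, ha]
    · by_cases hb : b = Z.β X
      · have h1 : Z.rho c₀ (X, b) = Sum.inr X := by simp [rho, hb]
        have h2 : Z.rho c₀ (X, a) = Sum.inl (Z.row c₀ X a) := by simp [rho, ha]
        rw [h1, h2, Z.base_row]
        simp only [base]
        rw [Z.T_le_x c₀ X c a ha, hb]
      · have h1 : Z.rho c₀ (X, a) = Sum.inl (Z.row c₀ X a) := by simp [rho, ha]
        have h2 : Z.rho c₀ (X, b) = Sum.inl (Z.row c₀ X b) := by simp [rho, hb]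
        rw [h1, h2, Z.base_row, Z.base_row, Z.T_le_T c₀ X c a b ha hb]

end Setup

end Pool.Agent.Lib.MP_3e31c9
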