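import Mathlib

/-!
# Tilings of truncated bounded posets: basic facts
-/

namespace Pool.Agent.Lib.MP_3e31c9

/-- The bounded poset `Y` minus its least and greatest elements is partitioned into copies of
`P`: `e (i, ·)` is the `i`-th copy. -/
def Tiles (P Y : Type) [PartialOrder P] [PartialOrder Y] [BoundedOrder Y] : Prop :=
  ∃ (I : Type) (e : I × P → Y), Function.Injective e ∧
    (∀ y, (∃ q, e q = y) ↔ (y ≠ ⊥ ∧ y ≠ ⊤)) ∧
    ∀ i a b, e (i, a) ≤ e (i, b) ↔ a ≤ b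

variable {P Y : Type} [PartialOrder P] [PartialOrder Y] [BoundedOrder Y]

theorem Tiles.of_grid {I₀ X : Type} (e₀ : I₀ × P → Y) (he₀ : Function.Injective e₀)
    (hr : ∀ y, (∃ q, e₀ q = y) ↔ (y ≠ ⊥ ∧ y ≠ ⊤)) (ρ : X × P → I₀) (hρ : Function.Injective ρ)
    (h1 : ∀ i, (∀ q, ρ q ≠ i) → ∀ a b, e₀ (i, a) ≤ e₀ (i, b) ↔ a ≤ b)
    (h2 : ∀ x c a b, e₀ (ρ (x, a), c) ≤ e₀ (ρ (x, b), c) ↔ a ≤ b) : Tiles P Y := by
  classical
  refine ⟨(X × P) ⊕ {i : I₀ // ∀ q, ρ q ≠ i}, fun q => match q with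
    | (Sum.inl (x, c), b) => e₀ (ρ (x, b), c)
    | (Sum.inr i, a) => e₀ (i.1, a), ?_, ?_, ?_⟩
  · rintro ⟨⟨x, c⟩ | i, b⟩ ⟨⟨x', c'⟩ | i', b'⟩ h
    · have h3 := he₀ h
      simp only [Prod.mk.injEq] at h3
      have h4 := hρ h3.1
      simp only [Prod.mk.injEq] at h4
      rw [h4.1, h4.2, h3.2]
    · have h3 := he₀ h
      simp only [Prod.mk.injEq] at h3
      exact absurd h3.1 (i'.2 _)
    · have h3 := he₀ h
      simp only [Prod.mk.injEq] at h3
      exact absurd h3.1.symm (i.2 _)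
    · have h3 := he₀ h
      simp only [Prod.mk.injEq] at h3
      rw [Subtype.ext h3.1, h3.2]
  · intro y
    rw [← hr y]
    constructor
    · rintro ⟨⟨⟨x, c⟩ | i, b⟩, rfl⟩
      · exact ⟨_, rfl⟩
      · exact ⟨_, rfl⟩
    · rintro ⟨⟨i, a⟩, rfl⟩
      by_cases hi : ∀ q, ρ q ≠ i
      · exact ⟨(Sum.inr ⟨i, hi⟩, a), rfl⟩
      · push Not at hi
        obtain ⟨⟨x, b⟩, rfl⟩ := hi
        exact ⟨(Sum.inl (x, a), b), rfl⟩
  · rintro (⟨x, c⟩ | i) a b
    · exact h2 x c a b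
    · exact h1 i.1 i.2 a b

theorem Tiles.congr {Y' : Type} [PartialOrder Y'] [BoundedOrder Y'] (f : Y ≃o Y')
    (h : Tiles P Y) : Tiles P Y' := by
  obtain ⟨I, e, he, hr, ho⟩ := h
  refine ⟨I, fun q => f (e q), fun a b hab => he (f.injective hab), fun y => ?_, fun i a b => ?_⟩
  · constructor
    · rintro ⟨q, rfl⟩
      have := (hr (e q)).1 ⟨q, rfl⟩
      exact ⟨fun h => this.1 (by rwa [map_eq_bot_iff] at h),
        fun h => this.2 (by rwa [map_eq_top_iff] at h)⟩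
    · rintro ⟨h1, h2⟩
      obtain ⟨q, hq⟩ := (hr (f.symm y)).2 ⟨fun h => h1 (by rwa [map_eq_bot_iff] at h),
        fun h => h2 (by rwa [map_eq_top_iff] at h)⟩
      exact ⟨q, by simp only [hq, OrderIso.apply_symm_apply]⟩
  · rw [f.le_iff_le]
    exact ho i a b

/-- The semigroup property. -/
theorem Tiles.sum {α β : Type} [Nonempty α] (h1 : Tiles P (Set α))
    (h2 : Tiles P (Set (Option β))) : Tiles P (Set (α ⊕ β)) := by
  classical
  obtain ⟨I, e, he, hr, ho⟩ := h1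
  obtain ⟨I', e', he', hr', ho'⟩ := h2
  -- the tile `(i, B)` and the tile `j`
  let f : Set α → Set β → Set (α ⊕ β) := fun A B => {x | match x with
    | Sum.inl a => a ∈ A
    | Sum.inr b => b ∈ B}
  have hf : ∀ A B A' B', f A B ≤ f A' B' ↔ A ≤ A' ∧ B ≤ B' := by
    intro A B A' B'
    constructor
    · intro h
      exact ⟨fun a ha => h (show (Sum.inl a : α ⊕ β) ∈ f A B from ha),
        fun b hb => h (show (Sum.inr b : α ⊕ β) ∈ f A B from hb)⟩
    · rintro ⟨h1, h2⟩ (a | b) hx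
      · exact h1 hx
      · exact h2 hx
  have hfeq : ∀ A B A' B', f A B = f A' B' → A = A' ∧ B = B' := by
    intro A B A' B' h
    have h1 := (hf A B A' B').1 h.le
    have h2 := (hf A' B' A B).1 h.ge
    exact ⟨le_antisymm h1.1 h2.1, le_antisymm h1.2 h2.2⟩
  have hfsurj : ∀ x : Set (α ⊕ β), ∃ A B, f A B = x := by
    intro x
    refine ⟨{a | Sum.inl a ∈ x}, {b | Sum.inr b ∈ x}, ?_⟩
    ext (a | b)
    · exact Iff.rfl
    · exact Iff.rfl
  have hfbot : f ⊥ ⊥ = ⊥ := by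
    ext (a | b)
    · exact Iff.rfl
    · exact Iff.rfl
  have hftop : f ⊤ ⊤ = ⊤ := by
    ext (a | b)
    · exact Iff.rfl
    · exact Iff.rfl
  let g : Set (Option β) → Set (α ⊕ β) := fun C =>
    f (if none ∈ C then ⊤ else ⊥) {b | some b ∈ C}
  have hbt : (⊥ : Set α) ≠ ⊤ := bot_ne_top
  have hg : ∀ C C', g C ≤ g C' ↔ C ≤ C' := by
    intro C C'
    simp only [g]
    rw [hf]
    constructor
    · rintro ⟨h1, h2⟩ (_ | b) hx
      · rw [if_pos hx] at h1
        by_contra hcon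
        rw [if_neg hcon] at h1
        exact hbt (le_bot_iff.1 h1).symm
      · exact h2 hx
    · intro h
      refine ⟨?_, fun b hb => h hb⟩
      by_cases hC : none ∈ C
      · rw [if_pos hC, if_pos (h hC)]
      · rw [if_neg hC]
        exact bot_le
  have hginj : Function.Injective g := fun C C' h =>
    le_antisymm ((hg C C').1 h.le) ((hg C' C).1 h.ge)
  have hgbot : g ⊥ = ⊥ := by
    rw [← hfbot]
    simp only [g]
    rw [if_neg (by simp)]
    rfl
  have hgtop : g ⊤ = ⊤ := by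
    rw [← hftop]
    simp only [g]
    rw [if_pos (by simp)]
    rfl
  have hg1 : ∀ C A B, g C = f A B → A = ⊥ ∨ A = ⊤ := by
    intro C A B h
    have := (hfeq _ _ _ _ h).1
    by_cases hC : none ∈ C
    · rw [if_pos hC] at this
      exact Or.inr this.symm
    · rw [if_neg hC] at this
      exact Or.inl this.symm
  have hg2 : ∀ A B, A = ⊥ ∨ A = ⊤ → ∃ C, g C = f A B := by
    rintro A B (rfl | rfl)
    · refine ⟨some '' B, ?_⟩
      simp only [g]
      rw [if_neg (by simp)]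
      congr 1
      ext b
      simp
    · refine ⟨insert none (some '' B), ?_⟩
      simp only [g]
      rw [if_pos (by simp)]
      congr 1
      ext b
      simp
  refine ⟨(I × Set β) ⊕ I', fun q => match q with
    | (Sum.inl (i, B), a) => f (e (i, a)) B
    | (Sum.inr j, a) => g (e' (j, a)), ?_, ?_, ?_⟩
  · rintro ⟨⟨i, B⟩ | j, a⟩ ⟨⟨i', B'⟩ | j', a'⟩ h
    · obtain ⟨h3, h4⟩ := hfeq _ _ _ _ h
      have h5 := he h3
      simp only [Prod.mk.injEq] at h5
      rw [h5.1, h5.2, h4]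
    · exfalso
      have h3 := (hr (e (i, a))).1 ⟨_, rfl⟩
      rcases hg1 _ _ _ h.symm with h4 | h4
      · exact h3.1 h4
      · exact h3.2 h4
    · exfalso
      have h3 := (hr (e (i', a'))).1 ⟨_, rfl⟩
      rcases hg1 _ _ _ h with h4 | h4
      · exact h3.1 h4
      · exact h3.2 h4
    · have h5 := he' (hginj h)
      simp only [Prod.mk.injEq] at h5
      rw [h5.1, h5.2]
  · intro y
    constructor
    · rintro ⟨⟨⟨i, B⟩ | j, a⟩, rfl⟩
      · have h3 := (hr (e (i, a))).1 ⟨_, rfl⟩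
        refine ⟨fun h => h3.1 ?_, fun h => h3.2 ?_⟩
        · rw [← hfbot] at h
          exact (hfeq _ _ _ _ h).1
        · rw [← hftop] at h
          exact (hfeq _ _ _ _ h).1
      · have h3 := (hr' (e' (j, a))).1 ⟨_, rfl⟩
        refine ⟨fun h => h3.1 ?_, fun h => h3.2 ?_⟩
        · rw [← hgbot] at h
          exact hginj h
        · rw [← hgtop] at h
          exact hginj h
    · rintro ⟨h1, h2⟩
      obtain ⟨A, B, rfl⟩ := hfsurj y
      by_cases hA : A = ⊥ ∨ A = ⊤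
      · obtain ⟨C, hC⟩ := hg2 A B hA
        rw [← hC] at h1 h2 ⊢
        obtain ⟨⟨j, a⟩, hja⟩ := (hr' C).2 ⟨fun h => h1 (by rw [h, hgbot]),
          fun h => h2 (by rw [h, hgtop])⟩
        exact ⟨(Sum.inr j, a), by simp only [hja]⟩
      · push Not at hA
        obtain ⟨⟨i, a⟩, hia⟩ := (hr A).2 hA
        exact ⟨(Sum.inl (i, B), a), by simp only [hia]⟩
  · rintro (⟨i, B⟩ | j) a b
    · simp only
      rw [hf, ho]
      exact ⟨fun h => h.1, fun h => ⟨h, le_rfl⟩⟩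
    · simp only
      rw [hg, ho']

end Pool.Agent.Lib.MP_3e31c9
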