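import Pool.Agent.Lib.MP_3e31c9.Gray

/-!
# Chunks of words
-/

namespace Pool.Agent.Lib.MP_3e31c9

theorem exists_chunks (A : Type) [Fintype A] (z o : A) (hzo : z ≠ o) (P : Type) [Fintype P]
    (hP : 0 < Fintype.card P) (k : ℕ) (hk : 0 < k)
    (hdiv : Fintype.card P ∣ Fintype.card A ^ k - 2) :
    ∃ (X : Type) (x : X × P → (Fin k → A))
      (δ : X → (Fin (Fintype.card P + 1) ⊕ P ⊕ P) → Fin k),
      Function.Injective x ∧
      (∀ w, (∃ q, x q = w) ↔ (w ≠ (fun _ => z) ∧ w ≠ (fun _ => o))) ∧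
      (∀ X c c' l, (∀ t, δ X t ≠ l) → x (X, c) l = x (X, c') l) ∧
      (∀ X c, ∃ t, x (X, c) (δ X t) ≠ z) ∧ (∀ X c, ∃ t, x (X, c) (δ X t) ≠ o) := by
  classical
  have hA : 2 ≤ Fintype.card A := by
    have : 1 < Fintype.card A := Fintype.one_lt_card_iff.mpr ⟨z, o, hzo⟩
    omega
  obtain ⟨g, hinj, hsurj, chg, hchg⟩ := exists_gray A hA k hk
  set r := Fintype.card A with hr
  set p := Fintype.card P with hp
  obtain ⟨nz, hnz, gnz⟩ := hsurj (fun _ => z)
  obtain ⟨no, hno, gno⟩ := hsurj (fun _ => o)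
  have hne : nz ≠ no := by
    rintro rfl
    rw [gnz] at gno
    exact hzo (congrFun gno ⟨0, hk⟩)
  set a := min nz no with ha
  set b := max nz no with hb
  have hab : a < b := by
    rcases lt_or_gt_of_ne hne with h | h
    · rw [ha, hb, min_eq_left h.le, max_eq_right h.le]
      exact h
    · rw [ha, hb, min_eq_right h.le, max_eq_left h.le]
      exact h
  have hbr : b < r ^ k := max_lt hnz hno
  have hset : ∀ n, (n = nz ∨ n = no) ↔ (n = a ∨ n = b) := by
    intro n
    rcases lt_or_gt_of_ne hne with h | h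
    · rw [ha, hb, min_eq_left h.le, max_eq_right h.le]
    · rw [ha, hb, min_eq_right h.le, max_eq_left h.le]
      exact or_comm
  let ν : ℕ → ℕ := fun t => if t < a then t else if t + 1 < b then t + 1 else t + 2
  have hν1 : ∀ t, t ≤ ν t ∧ ν t ≤ t + 2 := by
    intro t
    simp only [ν]
    split_ifs <;> omega
  have hν2 : ∀ t, ν t ≠ a ∧ ν t ≠ b := by
    intro t
    simp only [ν]
    split_ifs <;> omega
  have hν3 : ∀ s t, ν s = ν t → s = t := by
    intro s t
    simp only [ν]
    split_ifs <;> omega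
  have hν4 : ∀ n, n ≠ a → n ≠ b → n < r ^ k → ∃ t, t < r ^ k - 2 ∧ ν t = n := by
    intro n h1 h2 h3
    by_cases h4 : n < a
    · refine ⟨n, by omega, ?_⟩
      simp only [ν, if_pos h4]
    · by_cases h5 : n < b
      · refine ⟨n - 1, by omega, ?_⟩
        simp only [ν]
        rw [if_neg (by omega), if_pos (by omega)]
        omega
      · refine ⟨n - 2, by omega, ?_⟩
        simp only [ν]
        rw [if_neg (by omega), if_neg (by omega)]
        omega
  have hν5 : ∀ t, t < r ^ k - 2 → ν t < r ^ k := by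
    intro t ht
    have := hν1 t
    omega
  obtain ⟨M, hM⟩ := hdiv
  let eP : P ≃ Fin p := Fintype.equivFin P
  let x : Fin M × P → (Fin k → A) := fun q => g (ν (p * q.1 + eP q.2))
  have hlt : ∀ q : Fin M × P, p * (q.1 : ℕ) + eP q.2 < r ^ k - 2 := by
    intro q
    rw [hM]
    have h1 := q.1.2
    have h2 := (eP q.2).2
    have h3 : p * ((q.1 : ℕ) + 1) ≤ p * M := Nat.mul_le_mul_left p (by omega)
    have h4 : p * ((q.1 : ℕ) + 1) = p * q.1 + p := by ring
    omega
  have hxz : ∀ q, x q ≠ (fun _ => z) ∧ x q ≠ (fun _ => o) := by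
    intro q
    have h1 := hν2 (p * q.1 + eP q.2)
    have h2 := hν5 _ (hlt q)
    constructor
    · intro h
      have h3 := hinj _ _ h2 hnz (h.trans gnz.symm)
      have h4 := (hset _).1 (Or.inl h3)
      rcases h4 with h4 | h4
      · exact h1.1 h4
      · exact h1.2 h4
    · intro h
      have h3 := hinj _ _ h2 hno (h.trans gno.symm)
      have h4 := (hset _).1 (Or.inr h3)
      rcases h4 with h4 | h4
      · exact h1.1 h4
      · exact h1.2 h4
  have hexz : ∀ q, ∃ l, x q l ≠ z := by
    intro q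
    by_contra hcon
    push Not at hcon
    exact (hxz q).1 (funext hcon)
  have hexo : ∀ q, ∃ l, x q l ≠ o := by
    intro q
    by_contra hcon
    push Not at hcon
    exact (hxz q).2 (funext hcon)
  choose pz hpz using hexz
  choose po hpo using hexo
  let δ : Fin M → (Fin (p + 1) ⊕ P ⊕ P) → Fin k := fun X t => match t with
    | Sum.inl i => chg (p * X + i)
    | Sum.inr (Sum.inl c) => pz (X, c)
    | Sum.inr (Sum.inr c) => po (X, c)
  refine ⟨Fin M, x, δ, ?_, ?_, ?_, ?_, ?_⟩
  · rintro q q' h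
    have h1 := hinj _ _ (hν5 _ (hlt q)) (hν5 _ (hlt q')) h
    have h2 := hν3 _ _ h1
    have h3 : (q.1 : ℕ) = q'.1 := by
      have e1 : (p * (q.1 : ℕ) + eP q.2) / p = q.1 := by
        rw [Nat.mul_add_div hP, Nat.div_eq_of_lt (eP q.2).2, Nat.add_zero]
      have e2 : (p * (q'.1 : ℕ) + eP q'.2) / p = q'.1 := by
        rw [Nat.mul_add_div hP, Nat.div_eq_of_lt (eP q'.2).2, Nat.add_zero]
      rw [← e1, ← e2, h2]
    have h4 : (eP q.2 : ℕ) = eP q'.2 := by
      rw [h3] at h2
      omega
    exact Prod.ext (Fin.ext h3) (eP.injective (Fin.ext h4))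
  · intro w
    constructor
    · rintro ⟨q, rfl⟩
      exact hxz q
    · rintro ⟨h1, h2⟩
      obtain ⟨n, hn, rfl⟩ := hsurj w
      have h3 : ¬ (n = a ∨ n = b) := by
        rw [← hset]
        rintro (rfl | rfl)
        · exact h1 gnz
        · exact h2 gno
      push Not at h3
      obtain ⟨t, ht, rfl⟩ := hν4 n h3.1 h3.2 hn
      have ht' : t < p * M := by rw [← hM]; exact ht
      refine ⟨(⟨t / p, Nat.div_lt_of_lt_mul ht'⟩, eP.symm ⟨t % p, Nat.mod_lt _ hP⟩), ?_⟩
      simp only [x, Equiv.apply_symm_apply]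
      rw [Nat.div_add_mod]
  · intro X c c' l hl
    have hstep : ∀ i, i ≤ p + 1 → g (p * X + i) l = g (p * X) l := by
      intro i
      induction i with
      | zero => intro _; rfl
      | succ i ih =>
        intro hi
        rw [← ih (by omega), ← Nat.add_assoc]
        exact hchg _ _ (fun h => hl (Sum.inl ⟨i, by omega⟩) h.symm)
    have key : ∀ c, x (X, c) l = g (p * X) l := by
      intro c
      have h1 := hν1 (p * X + eP c)
      have h2 := (eP c).2
      have h3 := hstep (ν (p * X + eP c) - p * X) (by omega)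
      rw [Nat.add_sub_cancel' (by omega)] at h3
      exact h3
    rw [key c, key c']
  · intro X c
    exact ⟨Sum.inr (Sum.inl c), hpz (X, c)⟩
  · intro X c
    exact ⟨Sum.inr (Sum.inr c), hpo (X, c)⟩

end Pool.Agent.Lib.MP_3e31c9
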