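import Pool.Agent.Lib.MP_3e31c9.Absorb
import Pool.Agent.Lib.MP_3e31c9.Chunk

/-!
# Tiling a large power of a bounded poset containing a suitable family of copies
-/

namespace Pool.Agent.Lib.MP_3e31c9

theorem tiles_words (P S : Type) [Fintype P] [PartialOrder P] (hP : 0 < Fintype.card P)
    [Fintype S] [PartialOrder S] [BoundedOrder S] (hbt : (⊥ : S) ≠ ⊤) (J : Type) (q : J × P → S)
    (q_inj : Function.Injective q) (q_ord : ∀ j a b, q (j, a) ≤ q (j, b) ↔ a ≤ b)
    (q_bt : ∀ x, q x ≠ ⊥ ∧ q x ≠ ⊤)
    (updown : ∀ s, (∃ j, ∀ c, s < q (j, c)) ∨ (∃ j, ∀ c, q (j, c) < s)) (k lam : ℕ)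
    (hk : (lam + 2) * Fintype.card S + (3 * Fintype.card P + 1) ≤ k)
    (hcode : k ^ (3 * Fintype.card P + 1) *
      ((Fintype.card S ^ (3 * Fintype.card P + 1)) ^ Fintype.card P * Fintype.card S) ≤
        Fintype.card P ^ lam)
    (hdiv : Fintype.card P ∣ Fintype.card S ^ k - 2) : Tiles P (Fin k → S) := by
  classical
  set p := Fintype.card P with hp
  have hk0 : 0 < k := by omega
  have hPne : Nonempty P := Fintype.card_pos_iff.1 hP
  obtain ⟨c₀⟩ := hPne
  let R := {s : S // ∀ y, q y ≠ s}
  have hJ : Finite J := Finite.of_injective (fun j => q (j, c₀)) (fun a b h => by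
    have := q_inj h
    simpa using this)
  have : Fintype J := Fintype.ofFinite J
  have hcard : Fintype.card S = Fintype.card R + Fintype.card J * p := by
    have e : S ≃ R ⊕ (J × P) :=
      ((Equiv.sumCompl (fun s : S => ∀ y, q y ≠ s)).symm).trans
        (Equiv.sumCongr (Equiv.refl _) ((Equiv.ofInjective q q_inj).trans
          (Equiv.subtypeEquivRight (by
            intro s
            simp only [Set.mem_range, not_forall, not_not]))).symm)
    rw [Fintype.card_congr e, Fintype.card_sum, Fintype.card_prod]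
  let z : R := ⟨⊥, fun y => (q_bt y).1⟩
  let o : R := ⟨⊤, fun y => (q_bt y).2⟩
  have hzo : z ≠ o := fun h => hbt (congrArg Subtype.val h)
  have hR2 : 2 ≤ Fintype.card R := Fintype.one_lt_card_iff.mpr ⟨z, o, hzo⟩
  have hS2 : 2 ≤ Fintype.card S := by omega
  have hRk : 2 ≤ Fintype.card R ^ k := hR2.trans (Nat.le_self_pow (by omega) _)
  have hSk : 2 ≤ Fintype.card S ^ k := hS2.trans (Nat.le_self_pow (by omega) _)
  have hdiv' : p ∣ Fintype.card R ^ k - 2 := by
    rw [← Nat.modEq_iff_dvd' hRk]
    have h1 := (Nat.modEq_iff_dvd' hSk).2 hdiv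
    have h2 : Fintype.card S ≡ Fintype.card R [MOD p] := by
      rw [hcard]
      unfold Nat.ModEq
      simp
    exact h1.trans (h2.pow k)
  obtain ⟨X, x₀, δ, x₀_inj, x₀_range, x₀_agree, x₀_z, x₀_o⟩ :=
    exists_chunks R z o hzo P hP k hk0 hdiv'
  let x : X × P → (Fin k → S) := fun y l => (x₀ y l).1
  -- the common letter and the special positions
  have hpig : ∀ Y : X, ∃ (s : S) (H : Finset (Fin k)), H.card = lam + 2 ∧
      (∀ l ∈ H, l ∉ Set.range (δ Y)) ∧ ∀ c, ∀ l ∈ H, x (Y, c) l = s := by
    intro Y
    let E : Finset (Fin k) := Finset.univ.filter (fun l => l ∉ Set.range (δ Y))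
    have hE : (lam + 2) * Fintype.card S ≤ E.card := by
      have h1 : E.card + (Finset.univ.filter (fun l => ¬ (l ∉ Set.range (δ Y)))).card = k := by
        rw [Finset.card_filter_add_card_filter_not]
        simp
      have h2 : (Finset.univ.filter (fun l => ¬ (l ∉ Set.range (δ Y)))).card ≤ 3 * p + 1 := by
        have h3 : Finset.univ.filter (fun l => ¬ (l ∉ Set.range (δ Y))) ⊆
            Finset.univ.image (δ Y) := by
          intro l hl
          simp only [Finset.mem_filter, Finset.mem_univ, true_and, not_not] at hl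
          obtain ⟨t, rfl⟩ := hl
          exact Finset.mem_image_of_mem _ (Finset.mem_univ _)
        refine (Finset.card_le_card h3).trans (Finset.card_image_le.trans ?_)
        rw [Finset.card_univ, Fintype.card_sum, Fintype.card_sum, Fintype.card_fin, ← hp]
        omega
      omega
    obtain ⟨s, _, hs⟩ := Finset.exists_le_card_fiber_of_mul_le_card_of_maps_to
      (s := E) (t := (Finset.univ : Finset S)) (f := fun l => x (Y, c₀) l) (n := lam + 2)
      (fun _ _ => Finset.mem_univ _) ⟨⊥, Finset.mem_univ _⟩ (by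
        rw [Finset.card_univ, Nat.mul_comm]
        exact hE)
    obtain ⟨H, hHs, hHc⟩ := Finset.exists_subset_card_eq hs
    refine ⟨s, H, hHc, ?_, ?_⟩
    · intro l hl
      have := hHs hl
      simp only [E, Finset.mem_filter, Finset.mem_univ, true_and] at this
      exact this.1
    · intro c l hl
      have := hHs hl
      simp only [E, Finset.mem_filter, Finset.mem_univ, true_and] at this
      rw [← this.2]
      simp only [x]
      rw [x₀_agree Y c c₀ l (fun t ht => this.1 ⟨t, ht⟩)]
  choose s H H_card H_D H_s using hpig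
  -- minimal and maximal elements
  obtain ⟨b0, _, hb0⟩ := Finset.exists_minimal (s := (Finset.univ : Finset P))
    ⟨c₀, Finset.mem_univ _⟩
  obtain ⟨b1, _, hb1⟩ := Finset.exists_maximal (s := (Finset.univ : Finset P))
    ⟨c₀, Finset.mem_univ _⟩
  have hud : ∀ Y : X, ∃ (j : J) (β : P) (flag : P → S), (∀ b, flag b = ⊥ ∨ flag b = ⊤) ∧
      (((∀ c, s Y < q (j, c)) ∧ (∀ b, b ≤ β → b = β) ∧
        (∀ b, b ≠ β → (β ≤ b → flag b = ⊤) ∧ (¬ β ≤ b → flag b = ⊥))) ∨
      ((∀ c, q (j, c) < s Y) ∧ (∀ b, β ≤ b → b = β) ∧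
        (∀ b, b ≠ β → (b ≤ β → flag b = ⊥) ∧ (¬ b ≤ β → flag b = ⊤)))) := by
    intro Y
    rcases updown (s Y) with ⟨j, hj⟩ | ⟨j, hj⟩
    · refine ⟨j, b0, fun b => if b0 ≤ b then ⊤ else ⊥, fun b => ?_, Or.inl ⟨hj, ?_, ?_⟩⟩
      · by_cases h : b0 ≤ b
        · right; simp [h]
        · left; simp [h]
      · intro b hb
        exact le_antisymm hb (hb0 (Finset.mem_univ b) hb)
      · intro b _
        exact ⟨fun h => by simp [h], fun h => by simp [h]⟩
    · refine ⟨j, b1, fun b => if b ≤ b1 then ⊥ else ⊤, fun b => ?_, Or.inr ⟨hj, ?_, ?_⟩⟩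
      · by_cases h : b ≤ b1
        · left; simp [h]
        · right; simp [h]
      · intro b hb
        exact le_antisymm (hb1 (Finset.mem_univ b) hb) hb
      · intro b _
        exact ⟨fun h => by simp [h], fun h => by simp [h]⟩
  choose j β flag flag_bt hupdown using hud
  -- the code
  let Δ := Fin (p + 1) ⊕ P ⊕ P
  have hΔ : Fintype.card Δ = 3 * p + 1 := by
    simp only [Δ]
    rw [Fintype.card_sum, Fintype.card_sum, Fintype.card_fin, ← hp]
    omega
  let Lost := (Δ → Fin k) × (P → Δ → S) × S
  have hLost : Fintype.card Lost ≤ Fintype.card (Fin lam → P) := by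
    simp only [Lost]
    rw [Fintype.card_prod, Fintype.card_prod, Fintype.card_fun, Fintype.card_fun,
      Fintype.card_fun, Fintype.card_fun, hΔ, Fintype.card_fin, Fintype.card_fin]
    exact hcode
  obtain ⟨enc⟩ := Function.Embedding.nonempty_of_card_le hLost
  let lost : X → Lost := fun Y => (δ Y, fun c t => x (Y, c) (δ Y t), s Y)
  let Z : Setup P S k lam :=
    { J := J
      q := q
      q_inj := q_inj
      q_ord := q_ord
      q_bot := fun y => (q_bt y).1
      q_top := fun y => (q_bt y).2
      X := X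
      x := x
      x_inj := fun y y' h => x₀_inj (by
        funext l
        exact Subtype.ext (congrFun h l))
      x_range := fun w => by
        constructor
        · rintro ⟨y, rfl⟩
          have h1 := (x₀_range (x₀ y)).1 ⟨y, rfl⟩
          refine ⟨fun l y' => (x₀ y l).2 y', fun h => h1.1 ?_, fun h => h1.2 ?_⟩
          · funext l
            exact Subtype.ext (congrFun h l)
          · funext l
            exact Subtype.ext (congrFun h l)
        · rintro ⟨h1, h2, h3⟩
          obtain ⟨y, hy⟩ := (x₀_range (fun l => ⟨w l, h1 l⟩)).2 ⟨fun h => h2 (by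
            funext l
            exact congrArg Subtype.val (congrFun h l)), fun h => h3 (by
            funext l
            exact congrArg Subtype.val (congrFun h l))⟩
          refine ⟨y, ?_⟩
          funext l
          simp only [x, hy]
      D := fun Y => Set.range (δ Y)
      x_agree := fun Y c c' l hl => by
        simp only [x]
        rw [x₀_agree Y c c' l (fun t ht => hl ⟨t, ht⟩)]
      x_ne_bot := fun Y c => by
        obtain ⟨t, ht⟩ := x₀_z Y c
        exact ⟨δ Y t, ⟨t, rfl⟩, fun h => ht (Subtype.ext h)⟩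
      x_ne_top := fun Y c => by
        obtain ⟨t, ht⟩ := x₀_o Y c
        exact ⟨δ Y t, ⟨t, rfl⟩, fun h => ht (Subtype.ext h)⟩
      H := H
      H_card := H_card
      H_D := fun Y l hl => H_D Y l hl
      s := s
      H_s := fun Y c l hl => H_s Y c l hl
      j := j
      β := β
      flag := flag
      flag_bt := flag_bt
      updown := hupdown
      code := fun Y => enc (lost Y)
      code_inj := fun Y Y' h => by
        have h1 : lost Y = lost Y' := enc.injective h
        simp only [lost, Lost, Prod.mk.injEq] at h1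
        obtain ⟨h2, h3, h4⟩ := h1
        refine ⟨by rw [h2], h4, ?_⟩
        rintro c l ⟨t, rfl⟩
        have h5 : x (Y, c) (δ Y t) = x (Y', c) (δ Y' t) := congrFun (congrFun h3 c) t
        rw [h5, h2] }
  exact Z.tiles c₀

end Pool.Agent.Lib.MP_3e31c9
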