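import Mathlib

/-!
# A Hales-Jewett family of disjoint copies of `P` in a Boolean lattice
-/

namespace Pool.Agent.Lib.MP_3e31c9

open Combinatorics

lemma line_eq {K I : Type} {l l' : Line K I} {a b a' b' : K} (hab : a ≠ b)
    (h1 : l a = l' a') (h2 : l b = l' b') : l = l' := by
  have hactive : ∀ i, l.idxFun i = none → l'.idxFun i = none ∧ a' = a ∧ b' = b := by
    intro i hi
    have e1 := congrFun h1 i
    have e2 := congrFun h2 i
    simp only [Line.coe_apply, hi, Option.getD_none] at e1 e2
    cases hi' : l'.idxFun i with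
    | none =>
      simp only [hi', Option.getD_none] at e1 e2
      exact ⟨rfl, e1.symm, e2.symm⟩
    | some v =>
      simp only [hi', Option.getD_some] at e1 e2
      exact absurd (e1.trans e2.symm) hab
  obtain ⟨i₀, hi₀⟩ := l.proper
  obtain ⟨_, ha, hb⟩ := hactive i₀ hi₀
  ext i : 2
  cases hi : l.idxFun i with
  | none => rw [(hactive i hi).1]
  | some v =>
    have e1 := congrFun h1 i
    have e2 := congrFun h2 i
    simp only [Line.coe_apply, hi, Option.getD_some] at e1 e2
    cases hi' : l'.idxFun i with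
    | none =>
      simp only [hi', Option.getD_none] at e1 e2
      exact absurd (ha.symm.trans (e1.symm.trans (e2.trans hb))) hab
    | some v' =>
      simp only [hi', Option.getD_some] at e1
      rw [e1]

lemma line_injective {K I : Type} (l : Line K I) : Function.Injective (l : K → I → K) := by
  intro a b h
  obtain ⟨i, hi⟩ := l.proper
  have := congrFun h i
  simpa [Line.coe_apply, hi] using this

variable {P : Type} [PartialOrder P]

/-- Subsets of the alphabet `P ⊕ Fin 3` encoding the order of `P`. -/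
def low (c : P) : Set (P ⊕ Fin 3) := {a | match a with
  | Sum.inl y => y ≤ c
  | Sum.inr i => i ≠ 2}

/-- The dual encoding. -/
def upp (c : P) : Set (P ⊕ Fin 3) := {a | match a with
  | Sum.inl y => c ≤ y
  | Sum.inr i => i ≠ 2}

lemma low_le {a b : P} : low a ⊆ low b ↔ a ≤ b := by
  constructor
  · intro h
    exact h (show (Sum.inl a : P ⊕ Fin 3) ∈ low a from le_rfl)
  · rintro h (y | i) hy
    · exact le_trans (show y ≤ a from hy) h
    · exact hy

lemma upp_le {a b : P} : upp b ⊆ upp a ↔ a ≤ b := by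
  constructor
  · intro h
    exact h (show (Sum.inl b : P ⊕ Fin 3) ∈ upp b from le_rfl)
  · rintro h (y | i) hy
    · exact le_trans h (show b ≤ y from hy)
    · exact hy

lemma mem_low (c : P) : (Sum.inr 0 : P ⊕ Fin 3) ∈ low c ∧ (Sum.inr 1 : P ⊕ Fin 3) ∈ low c ∧
    (Sum.inr 2 : P ⊕ Fin 3) ∉ low c :=
  ⟨show (0 : Fin 3) ≠ 2 by decide, show (1 : Fin 3) ≠ 2 by decide, fun h => h rfl⟩

lemma mem_upp (c : P) : (Sum.inr 0 : P ⊕ Fin 3) ∈ upp c ∧ (Sum.inr 1 : P ⊕ Fin 3) ∈ upp c ∧
    (Sum.inr 2 : P ⊕ Fin 3) ∉ upp c :=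
  ⟨show (0 : Fin 3) ≠ 2 by decide, show (1 : Fin 3) ≠ 2 by decide, fun h => h rfl⟩

/-- In a large Boolean lattice there is a family of disjoint copies of `P`, avoiding the bottom
and the top, such that every element lies strictly below, or strictly above, all the elements of
some copy. -/
theorem exists_family (P : Type) [Finite P] [PartialOrder P] :
    ∃ m₁ : ℕ, ∀ m, m₁ ≤ m → ∃ (J : Type) (q : J × P → Set (Fin m)),
      Function.Injective q ∧ (∀ j a b, q (j, a) ≤ q (j, b) ↔ a ≤ b) ∧
      (∀ x, q x ≠ ⊥ ∧ q x ≠ ⊤) ∧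
      ∀ s : Set (Fin m), (∃ j, ∀ c, s < q (j, c)) ∨ (∃ j, ∀ c, q (j, c) < s) := by
  classical
  obtain ⟨I, hI, hHJ⟩ := Line.exists_mono_in_high_dimension (P ⊕ Fin 3) Bool
  have : Fintype P := Fintype.ofFinite P
  let K := P ⊕ Fin 3
  let N := Fintype.card (I → K)
  refine ⟨N + 1, fun m hm => ?_⟩
  let φ : (I → K) → Fin m := fun v => Fin.castLE (by omega) (Fintype.equivFin (I → K) v)
  have hφ : Function.Injective φ := fun v w h =>
    (Fintype.equivFin (I → K)).injective (Fin.castLE_injective _ h)
  let e : Fin m := ⟨N, by omega⟩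
  have he : ∀ v, φ v ≠ e := by
    intro v h
    have h1 := congrArg Fin.val h
    simp only [φ, e, Fin.val_castLE] at h1
    have h2 := (Fintype.equivFin (I → K) v).2
    omega
  -- the down and the up copies
  let D : Line K I → P → Set (Fin m) := fun l c => (fun a => φ (l a)) '' low c
  let U : Line K I → P → Set (Fin m) := fun l c => ((fun a => φ (l a)) '' upp c)ᶜ
  have hl : ∀ l : Line K I, Function.Injective (fun a => φ (l a)) := fun l a b h =>
    line_injective l (hφ h)
  have hDl : ∀ l l' c c', D l c = D l' c' → l = l' ∧ c = c' := by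
    intro l l' c c' h
    have h0 : (fun a => φ (l a)) (Sum.inr 0) ∈ D l' c' := by
      rw [← h]
      exact Set.mem_image_of_mem _ (mem_low c).1
    have h1 : (fun a => φ (l a)) (Sum.inr 1) ∈ D l' c' := by
      rw [← h]
      exact Set.mem_image_of_mem _ (mem_low c).2.1
    obtain ⟨a', _, ha'⟩ := h0
    obtain ⟨b', _, hb'⟩ := h1
    have hll : l = l' := line_eq (show (Sum.inr 0 : K) ≠ Sum.inr 1 by simp)
      (hφ ha').symm (hφ hb').symm
    subst hll
    refine ⟨rfl, ?_⟩
    have h2 : low c = low c' := (hl l).image_injective h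
    exact le_antisymm (low_le.1 h2.subset) (low_le.1 h2.symm.subset)
  have hUl : ∀ l l' c c', U l c = U l' c' → l = l' ∧ c = c' := by
    intro l l' c c' h
    have h := compl_injective h
    have h0 : (fun a => φ (l a)) (Sum.inr 0) ∈ (fun a => φ (l' a)) '' upp c' := by
      rw [← h]
      exact Set.mem_image_of_mem _ (mem_upp c).1
    have h1 : (fun a => φ (l a)) (Sum.inr 1) ∈ (fun a => φ (l' a)) '' upp c' := by
      rw [← h]
      exact Set.mem_image_of_mem _ (mem_upp c).2.1
    obtain ⟨a', _, ha'⟩ := h0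
    obtain ⟨b', _, hb'⟩ := h1
    have hll : l = l' := line_eq (show (Sum.inr 0 : K) ≠ Sum.inr 1 by simp)
      (hφ ha').symm (hφ hb').symm
    subst hll
    refine ⟨rfl, ?_⟩
    have h2 : upp c = upp c' := (hl l).image_injective h
    exact le_antisymm (upp_le.1 h2.symm.subset) (upp_le.1 h2.subset)
  have hDe : ∀ l c, e ∉ D l c := by
    rintro l c ⟨a, _, ha⟩
    exact he _ ha
  have hUe : ∀ l c, e ∈ U l c := by
    rintro l c ⟨a, _, ha⟩
    exact he _ ha
  refine ⟨Line K I × Bool, fun x => if x.1.2 then D x.1.1 x.2 else U x.1.1 x.2, ?_, ?_, ?_, ?_⟩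
  · rintro ⟨⟨l, b⟩, c⟩ ⟨⟨l', b'⟩, c'⟩ h
    cases b <;> cases b' <;> simp only [Bool.false_eq_true, if_true, if_false] at h
    · obtain ⟨h1, h2⟩ := hUl _ _ _ _ h
      rw [h1, h2]
    · exact absurd (h ▸ hUe l c) (hDe l' c')
    · exact absurd (h.symm ▸ hUe l' c') (hDe l c)
    · obtain ⟨h1, h2⟩ := hDl _ _ _ _ h
      rw [h1, h2]
  · rintro ⟨l, b⟩ a a'
    cases b
    · simp only [Bool.false_eq_true, if_false]
      simp only [U]
      rw [Set.compl_subset_compl, Set.image_subset_image_iff (hl l), upp_le]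
    · simp only [if_true]
      simp only [D]
      rw [Set.image_subset_image_iff (hl l), low_le]
  · rintro ⟨⟨l, b⟩, c⟩
    cases b
    · simp only [Bool.false_eq_true, if_false]
      constructor
      · intro h
        have := hUe l c
        rw [h] at this
        exact this
      · intro h
        have h1 : φ (l (Sum.inr 0)) ∈ U l c := by rw [h]; trivial
        exact h1 (Set.mem_image_of_mem (fun a => φ (l a)) (mem_upp c).1)
    · simp only [if_true]
      constructor
      · intro h
        have h1 : φ (l (Sum.inr 0)) ∈ D l c := Set.mem_image_of_mem (fun a => φ (l a)) (mem_low c).1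
        rw [h] at h1
        exact h1
      · intro h
        apply hDe l c
        rw [h]
        trivial
  · intro s
    obtain ⟨l, col, hcol⟩ := hHJ (fun v => decide (φ v ∈ s))
    cases col
    · left
      refine ⟨(l, false), fun c => ?_⟩
      simp only [Bool.false_eq_true, if_false]
      have hs : ∀ a, φ (l a) ∉ s := fun a => by simpa using hcol a
      rw [Set.ssubset_iff_of_subset]
      · refine ⟨φ (l (Sum.inr 2)), ?_, hs _⟩
        rintro ⟨a, ha, haa⟩
        rw [hl l haa] at ha
        exact (mem_upp c).2.2 ha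
      · rintro y hy ⟨a, _, rfl⟩
        exact hs a hy
    · right
      refine ⟨(l, true), fun c => ?_⟩
      simp only [if_true]
      have hs : ∀ a, φ (l a) ∈ s := fun a => by simpa using hcol a
      rw [Set.ssubset_iff_of_subset]
      · refine ⟨φ (l (Sum.inr 2)), hs _, ?_⟩
        rintro ⟨a, ha, haa⟩
        rw [hl l haa] at ha
        exact (mem_low c).2.2 ha
      · rintro y ⟨a, _, rfl⟩
        exact hs a

end Pool.Agent.Lib.MP_3e31c9
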