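import Pool.Agent.Lib.MP_3e31c9.Build
import Pool.Agent.Lib.MP_3e31c9.Family

/-!
# Tiling the truncated Boolean lattice: the final count
-/

namespace Pool.Agent.Lib.MP_3e31c9

/-- Exponentials beat polynomials, in the form needed. -/
lemma exists_params (A B C : ℕ) (hA : 0 < A) :
    ∃ k₀ : ℕ, ∀ k, k₀ ≤ k → ∃ lam : ℕ, (lam + 2) * A + B ≤ k ∧ k ^ B * C ≤ 2 ^ lam := by
  have h1 := tendsto_pow_const_div_const_pow_of_one_lt B (r := (2 : ℝ)) (by norm_num)
  set C' : ℕ := (2 * A) ^ B * C * 2 with hC'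
  have h2 : ∀ᶠ n : ℕ in Filter.atTop, ((n : ℝ) ^ B / 2 ^ n) < 1 / (C' + 1) := by
    refine h1.eventually_lt_const ?_
    positivity
  obtain ⟨n₀, hn₀⟩ := Filter.eventually_atTop.1 h2
  refine ⟨max (4 * A + 2 * B) (2 * A * n₀), fun k hk => ?_⟩
  have hk1 : 4 * A + 2 * B ≤ k := (le_max_left _ _).trans hk
  have hk2 : 2 * A * n₀ ≤ k := (le_max_right _ _).trans hk
  refine ⟨k / (2 * A), ?_, ?_⟩
  · have h3 : k / (2 * A) * (2 * A) ≤ k := Nat.div_mul_le_self _ _
    have h4 : (k / (2 * A) + 2) * A = (k / (2 * A) * (2 * A)) / 2 + 2 * A := by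
      have : k / (2 * A) * (2 * A) = (k / (2 * A) * A) * 2 := by ring
      rw [this, Nat.mul_div_cancel _ (by norm_num)]
      ring
    omega
  · set t := k / (2 * A) with ht
    have h3 : k < 2 * A * (t + 1) := by
      have := Nat.lt_mul_div_succ k (show 0 < 2 * A by omega)
      simpa using this
    have h4 : n₀ ≤ t := by
      rw [ht, Nat.le_div_iff_mul_le (by omega)]
      nlinarith
    have h5 := hn₀ (t + 1) (by omega)
    rw [div_lt_div_iff₀ (by positivity) (by positivity)] at h5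
    have h6 : (t + 1) ^ B * (C' + 1) < 2 ^ (t + 1) := by
      have h7 : (((t + 1 : ℕ) : ℝ) ^ B * (C' + 1)) < 2 ^ (t + 1) := by
        simpa using h5
      exact_mod_cast h7
    have h7 : k ^ B ≤ (2 * A) ^ B * (t + 1) ^ B := by
      rw [← Nat.mul_pow]
      exact Nat.pow_le_pow_left h3.le B
    have h8 : k ^ B * C * 2 ≤ (t + 1) ^ B * C' := by
      calc k ^ B * C * 2 ≤ (2 * A) ^ B * (t + 1) ^ B * C * 2 := by
            gcongr
        _ = (t + 1) ^ B * C' := by rw [hC']; ring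
    have h9 : (t + 1) ^ B * C' ≤ (t + 1) ^ B * (C' + 1) := Nat.mul_le_mul_left _ (by omega)
    have h10 : (2 : ℕ) ^ (t + 1) = 2 ^ t * 2 := pow_succ 2 t
    omega

/-- Currying, as an order isomorphism. -/
def curryIso (α β : Type) : (α → Set β) ≃o Set (α × β) where
  toFun f := {x | x.2 ∈ f x.1}
  invFun s := fun i => {a | (i, a) ∈ s}
  left_inv _ := rfl
  right_inv _ := rfl
  map_rel_iff' := by
    intro f g
    constructor
    · intro h i a ha
      exact h (show (i, a) ∈ {x : α × β | x.2 ∈ f x.1} from ha)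
    · rintro h ⟨i, a⟩ hx
      exact h i hx

/-- `G x`: the truncated Boolean lattice of dimension `x + 1` can be tiled. -/
def G (P : Type) [PartialOrder P] (x : ℕ) : Prop := Tiles P (Set (Fin (x + 1)))

lemma G_zero (P : Type) [PartialOrder P] : G P 0 := by
  refine ⟨Empty, fun q => q.1.elim, fun q => q.1.elim, fun y => ?_, fun i => i.elim⟩
  constructor
  · rintro ⟨⟨i, _⟩, _⟩
    exact i.elim
  · rintro ⟨h1, h2⟩
    exfalso
    by_cases h : (0 : Fin (0 + 1)) ∈ y
    · apply h2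
      ext i
      rw [show i = 0 from Fin.ext (by omega)]
      simp [h]
    · apply h1
      ext i
      rw [show i = 0 from Fin.ext (by omega)]
      simp [h]

lemma G_add (P : Type) [PartialOrder P] {x y : ℕ} (hx : G P x) (hy : G P y) : G P (x + y) := by
  have h1 : Tiles P (Set (Option (Fin y))) :=
    Tiles.congr (finSuccEquiv y).toOrderIsoSet hy
  have h2 : Tiles P (Set (Fin (x + 1) ⊕ Fin y)) := Tiles.sum hx h1
  have e : Fin (x + 1) ⊕ Fin y ≃ Fin (x + y + 1) :=
    finSumFinEquiv.trans (finCongr (by omega))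
  exact Tiles.congr e.toOrderIsoSet h2

/-- The main product statement. -/
lemma exists_G_mul (P : Type) [Fintype P] [PartialOrder P] (hP : 2 ≤ Fintype.card P) :
    ∃ m₁ : ℕ, ∀ m, m₁ ≤ m → ∃ k₀ : ℕ, ∀ k, k₀ ≤ k → Fintype.card P ∣ 2 ^ (m * k) - 2 →
      0 < m * k ∧ G P (m * k - 1) := by
  obtain ⟨m₁, hm₁⟩ := exists_family P
  refine ⟨max m₁ 1, fun m hm => ?_⟩
  have hm0 : 1 ≤ m := (le_max_right _ _).trans hm
  obtain ⟨J, q, q_inj, q_ord, q_bt, updown⟩ := hm₁ m ((le_max_left _ _).trans hm)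
  have hne : Nonempty (Fin m) := ⟨⟨0, hm0⟩⟩
  have hcard : Fintype.card (Set (Fin m)) = 2 ^ m := by
    rw [Fintype.card_set, Fintype.card_fin]
  set p := Fintype.card P with hp
  obtain ⟨k₀, hk₀⟩ := exists_params (2 ^ m) (3 * p + 1)
    (((2 ^ m) ^ (3 * p + 1)) ^ p * 2 ^ m) (by positivity)
  refine ⟨max k₀ 1, fun k hk hdiv => ?_⟩
  have hk1 : 1 ≤ k := (le_max_right _ _).trans hk
  obtain ⟨lam, h1, h2⟩ := hk₀ k ((le_max_left _ _).trans hk)
  have hpos : 0 < m * k := Nat.mul_pos (by omega) (by omega)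
  refine ⟨hpos, ?_⟩
  have h3 : Tiles P (Fin k → Set (Fin m)) := by
    refine tiles_words P (Set (Fin m)) (by omega) bot_ne_top J q q_inj q_ord q_bt updown k lam
      ?_ ?_ ?_
    · rw [hcard]
      exact h1
    · rw [hcard]
      exact h2.trans (Nat.pow_le_pow_left hP lam)
    · rw [hcard, ← pow_mul]
      exact hdiv
  have h4 : Tiles P (Set (Fin k × Fin m)) := Tiles.congr (curryIso _ _) h3
  have e : Fin k × Fin m ≃ Fin (m * k - 1 + 1) :=
    finProdFinEquiv.trans (finCongr (by rw [Nat.mul_comm k m]; omega))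
  exact Tiles.congr e.toOrderIsoSet h4

open Nat in
/-- All large admissible dimensions. -/
theorem eventually_G (P : Type) [Fintype P] [PartialOrder P] (hP : 2 ≤ Fintype.card P) :
    ∃ N : ℕ, ∀ x, N ≤ x → Fintype.card P ∣ 2 ^ (x + 1) - 2 → G P x := by
  set p := Fintype.card P with hp
  -- the odd modulus
  obtain ⟨q, hq⟩ : ∃ q : ℕ, ∀ x, (p ∣ 2 ^ (x + 1) - 2 ↔ q ∣ 2 ^ x - 1) := by
    rcases Nat.even_or_odd p with he | ho
    · obtain ⟨q, hq⟩ := he
      refine ⟨q, fun x => ?_⟩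
      have h1 : 2 ^ (x + 1) - 2 = 2 * (2 ^ x - 1) := by
        rw [pow_succ, Nat.mul_sub]
        omega
      rw [h1, hq, ← two_mul]
      exact Nat.mul_dvd_mul_iff_left (by norm_num)
    · refine ⟨p, fun x => ?_⟩
      have h1 : 2 ^ (x + 1) - 2 = 2 * (2 ^ x - 1) := by
        rw [pow_succ, Nat.mul_sub]
        omega
      rw [h1]
      exact Nat.Coprime.dvd_mul_left (Nat.coprime_two_right.mpr ho)
  rcases Nat.even_or_odd q with he | ho
  · -- no admissible dimension
    refine ⟨1, fun x hx hdiv => ?_⟩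
    exfalso
    rw [hq] at hdiv
    have h1 : 2 ∣ 2 ^ x - 1 := (even_iff_two_dvd.1 he).trans hdiv
    have h2 : 2 ∣ 2 ^ x := dvd_pow_self 2 (by omega)
    have h3 : 1 ≤ 2 ^ x := Nat.one_le_two_pow
    omega
  · have hcop : Nat.Coprime 2 q := Nat.coprime_two_left.mpr ho
    have hq0 : NeZero q := ⟨by rintro rfl; simp at ho⟩
    let w : (ZMod q)ˣ := ZMod.unitOfCoprime 2 hcop
    set d := orderOf w with hd
    have hd0 : 0 < d := orderOf_pos w
    have hdvd : ∀ x, (q ∣ 2 ^ x - 1 ↔ d ∣ x) := by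
      intro x
      rw [hd, orderOf_dvd_iff_pow_eq_one, ← (Nat.modEq_iff_dvd' Nat.one_le_two_pow),
        ← ZMod.natCast_eq_natCast_iff, Units.ext_iff]
      simp only [Nat.cast_one, Nat.cast_pow, Nat.cast_ofNat, Units.val_pow_eq_pow_val,
        Units.val_one, w, ZMod.coe_unitOfCoprime]
      exact eq_comm
    obtain ⟨m₁, hm₁⟩ := exists_G_mul P hP
    -- choose `m ≡ 1` mod `d`
    let m := 1 + d * m₁
    have hm : m₁ ≤ m := by
      have : 1 * m₁ ≤ d * m₁ := Nat.mul_le_mul_right _ hd0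
      simp only [m]
      omega
    obtain ⟨k₀, hk₀⟩ := hm₁ m hm
    have hgood : ∀ t, k₀ ≤ t → G P (m * (1 + d * t) - 1) := by
      intro t ht
      have h1 : k₀ ≤ 1 + d * t := by
        have : 1 * t ≤ d * t := Nat.mul_le_mul_right _ hd0
        omega
      refine (hk₀ (1 + d * t) h1 ?_).2
      have h2 : m * (1 + d * t) = (m * (1 + d * t) - 1) + 1 := by
        have : 0 < m * (1 + d * t) := Nat.mul_pos (by simp only [m]; omega) (by omega)
        omega
      rw [h2, ← hp, hq, hdvd]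
      refine ⟨m₁ + t + d * m₁ * t, ?_⟩
      have h3 : m * (1 + d * t) = 1 + d * (m₁ + t + d * m₁ * t) := by
        simp only [m]
        ring
      rw [h3]
      omega
    -- the submonoid of good dimensions
    let M : AddSubmonoid ℕ :=
      { carrier := {x | G P x}
        add_mem' := fun ha hb => G_add P ha hb
        zero_mem' := G_zero P }
    obtain ⟨N, hN⟩ := Nat.exists_mem_closure_of_ge (M : Set ℕ)
    refine ⟨N, fun x hx hdiv => ?_⟩
    have hg1 : Nat.setGcd (M : Set ℕ) ∣ m * (1 + d * k₀) - 1 :=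
      Nat.setGcd_dvd_of_mem (hgood k₀ le_rfl)
    have hg2 : Nat.setGcd (M : Set ℕ) ∣ m * (1 + d * (k₀ + 1)) - 1 :=
      Nat.setGcd_dvd_of_mem (hgood (k₀ + 1) (by omega))
    have hm0 : 0 < m := by simp only [m]; omega
    have hpos : 0 < m * (1 + d * k₀) := Nat.mul_pos hm0 (by omega)
    have hg3 : Nat.setGcd (M : Set ℕ) ∣ m * d := by
      have h1 : m * (1 + d * (k₀ + 1)) - 1 = (m * (1 + d * k₀) - 1) + m * d := by
        have : m * (1 + d * (k₀ + 1)) = m * (1 + d * k₀) + m * d := by ring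
        omega
      rw [h1] at hg2
      exact (Nat.dvd_add_right hg1).1 hg2
    have hcop' : Nat.Coprime (Nat.setGcd (M : Set ℕ)) m := by
      rw [Nat.coprime_iff_gcd_eq_one]
      have h1 : Nat.gcd (Nat.setGcd (M : Set ℕ)) m ∣ m * (1 + d * k₀) - 1 :=
        (Nat.gcd_dvd_left _ _).trans hg1
      have h2 : Nat.gcd (Nat.setGcd (M : Set ℕ)) m ∣ m * (1 + d * k₀) :=
        (Nat.gcd_dvd_right _ _).trans (Dvd.intro _ rfl)
      have h3 : Nat.gcd (Nat.setGcd (M : Set ℕ)) m ∣ 1 := by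
        have h4 := (Nat.dvd_sub h2 h1)
        have h5 : m * (1 + d * k₀) - (m * (1 + d * k₀) - 1) = 1 := by omega
        rwa [h5] at h4
      exact Nat.dvd_one.1 h3
    have hgd : Nat.setGcd (M : Set ℕ) ∣ d := hcop'.dvd_of_dvd_mul_left hg3
    have hdx : d ∣ x := by
      rw [hq, hdvd] at hdiv
      exact hdiv
    have hmem := hN x hx (hgd.trans hdx)
    rw [AddSubmonoid.closure_eq] at hmem
    exact hmem

end Pool.Agent.Lib.MP_3e31c9
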