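import Mathlib

/-!
# A modular Gray code
-/

namespace Pool.Agent.Lib.MP_3e31c9

theorem exists_gray (A : Type) [Fintype A] (hA : 2 ≤ Fintype.card A) (k : ℕ) (hk : 0 < k) :
    ∃ g : ℕ → (Fin k → A),
      (∀ n n', n < Fintype.card A ^ k → n' < Fintype.card A ^ k → g n = g n' → n = n') ∧
      (∀ w, ∃ n, n < Fintype.card A ^ k ∧ g n = w) ∧
      ∃ chg : ℕ → Fin k, ∀ n j, j ≠ chg n → g (n + 1) j = g n j := by
  classical
  set r := Fintype.card A with hr
  have hr0 : 0 < r := by omega
  have : NeZero r := ⟨by omega⟩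
  have : Fact (1 < r) := ⟨by omega⟩
  have hcard : Fintype.card (ZMod r) = Fintype.card A := by rw [ZMod.card r]
  let φ : ZMod r ≃ A := Fintype.equivOfCardEq hcard
  let g : ℕ → (Fin k → A) := fun n j => φ (((n / r ^ (j : ℕ) : ℕ) : ZMod r) -
    ((n / r ^ ((j : ℕ) + 1) : ℕ) : ZMod r))
  have hinj : ∀ n n', n < r ^ k → n' < r ^ k → g n = g n' → n = n' := by
    intro n n' hn hn' hg
    have key : ∀ i, i ≤ k → n / r ^ (k - i) = n' / r ^ (k - i) := by
      intro i
      induction i with
      | zero =>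
        intro _
        rw [Nat.sub_zero, Nat.div_eq_of_lt hn, Nat.div_eq_of_lt hn']
      | succ i ih =>
        intro hi
        have h1 := ih (by omega)
        have h2 := congrFun hg ⟨k - (i + 1), by omega⟩
        simp only [g] at h2
        have h3 := φ.injective h2
        have h4 : k - (i + 1) + 1 = k - i := by omega
        rw [h4, h1] at h3
        have h5 : ((n / r ^ (k - (i + 1)) : ℕ) : ZMod r) = ((n' / r ^ (k - (i + 1)) : ℕ) : ZMod r) :=
          sub_left_injective h3
        rw [ZMod.natCast_eq_natCast_iff'] at h5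
        have h6 : n / r ^ (k - (i + 1)) / r = n' / r ^ (k - (i + 1)) / r := by
          rw [Nat.div_div_eq_div_mul, Nat.div_div_eq_div_mul, ← pow_succ, h4, h1]
        rw [← Nat.div_add_mod (n / r ^ (k - (i + 1))) r, h6, h5, Nat.div_add_mod]
    have := key k le_rfl
    simpa using this
  refine ⟨g, hinj, ?_, ?_⟩
  · intro w
    let g' : Fin (r ^ k) → (Fin k → A) := fun n => g n
    have hg' : Function.Injective g' := fun a b hab => Fin.ext (hinj _ _ a.2 b.2 hab)
    have hbij : Function.Bijective g' := by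
      rw [Fintype.bijective_iff_injective_and_card]
      exact ⟨hg', by simp [hr]⟩
    obtain ⟨n, hn⟩ := hbij.2 w
    exact ⟨n, n.2, hn⟩
  · have hchg : ∀ n : ℕ, ∃ c : Fin k, ∀ j, j ≠ c → g (n + 1) j = g n j := by
      intro n
      have hsame : ∀ j : Fin k, ¬ (r ^ (j : ℕ) ∣ n + 1 ∧ ¬ r ^ ((j : ℕ) + 1) ∣ n + 1) →
          g (n + 1) j = g n j := by
        intro j hj
        simp only [g]
        congr 1
        rw [Nat.succ_div, Nat.succ_div]
        by_cases h1 : r ^ (j : ℕ) ∣ n + 1
        · by_cases h2 : r ^ ((j : ℕ) + 1) ∣ n + 1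
          · rw [if_pos h1, if_pos h2]
            push_cast
            ring
          · exact absurd ⟨h1, h2⟩ hj
        · have h2 : ¬ r ^ ((j : ℕ) + 1) ∣ n + 1 := fun h => h1 ((pow_dvd_pow r (by omega)).trans h)
          rw [if_neg h1, if_neg h2]
          push_cast
          ring
      by_cases hex : ∃ c : Fin k, r ^ (c : ℕ) ∣ n + 1 ∧ ¬ r ^ ((c : ℕ) + 1) ∣ n + 1
      · obtain ⟨c, hc1, hc2⟩ := hex
        refine ⟨c, fun j hj => hsame j ?_⟩
        rintro ⟨h1, h2⟩
        rcases lt_trichotomy (j : ℕ) (c : ℕ) with h | h | h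
        · exact h2 ((pow_dvd_pow r (by omega)).trans hc1)
        · exact hj (Fin.ext h)
        · exact hc2 ((pow_dvd_pow r (by omega)).trans h1)
      · push Not at hex
        refine ⟨⟨0, hk⟩, fun j _ => hsame j ?_⟩
        rintro ⟨h1, h2⟩
        exact h2 (hex j h1)
    choose chg h using hchg
    exact ⟨chg, h⟩

end Pool.Agent.Lib.MP_3e31c9
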